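import Pool.Agent.Helper83.Cc.Asm

/-! # The Weyl function without the neighbours, and the curve near the diagonal -/

set_option autoImplicit false

open MeasureTheory Filter Topology ProbabilityTheory
open scoped BigOperators ENNReal NNReal InnerProductSpace ComplexConjugate

namespace Pool.Agent.Helper36.Cc

open Pool.Agent.H5R2.NB Pool.Agent.Helper26.Nb Pool.Agent.Helper26.Cm Pool.Agent.Helper26.Dj
  Pool.Agent.Helper26.Rg Pool.Agent.Helper26.Cc Pool.Agent.Helper29.Cc Pool.Agent.Helper83.Cc
open Pool.Agent.TH369.AN (Rz pt ro cp fc pt_sa cp_sa rz_eq rz_uniq rz_norm)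
open Pool.Agent.TH369.MU (zk ep)

variable {d : ℕ}

lemma rem_dl (T : L2 (Site d) →L[ℂ] L2 (Site d)) (l : List (Site d)) (h0 : (0 : Site d) ∉ l)
    (x : Site d) : (rem l T (dl 0)) x = if x ∈ l then 0 else (T (dl 0)) x := by
  classical
  induction l with
  | nil => simp [rem]
  | cons y l ih =>
    rw [List.mem_cons, not_or] at h0
    show (cp (rem l T) (dl y) (dl 0)) x = _
    rw [cp_ap, co_ap, dl_apply, if_neg h0.1, zero_smul, sub_zero, ih h0.2]
    by_cases h1 : y = x
    · subst h1; simp
    · rw [if_neg h1]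
      simp [List.mem_cons, Ne.symm h1]

lemma TC_dl (c : ℝ) {R : ℝ} (hR : 0 ≤ R) (V : Site d → ℝ) (x : Site d)
    (hx : ∀ i : Fin d, x ≠ Pi.single i 1 ∧ x ≠ -Pi.single i 1) :
    (TC c hR (Function.update V 0 0) (dl 0)) x = 0 := by
  rw [TC_apply]
  have h1 : hopf c (fun y => (dl 0 : L2 (Site d)) y) x = 0 := by
    unfold hopf
    have h : ∀ i : Fin d, (dl 0 : L2 (Site d)) (x + Pi.single i 1) +
        (dl 0 : L2 (Site d)) (x - Pi.single i 1) = 0 := by
      intro i
      rw [dl_apply, dl_apply, if_neg, if_neg, add_zero]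
      · intro h
        exact (hx i).1 (sub_eq_zero.1 h.symm)
      · intro h
        exact (hx i).2 (eq_neg_of_add_eq_zero_left h.symm)
    simp only [h, Finset.sum_const_zero, mul_zero]
  rw [h1, zero_add, dl_apply]
  by_cases h0 : (0 : Site d) = x
  · subst h0
    have e2 : cl R (Function.update V 0 0) 0 = 0 := by
      unfold cl pot
      rw [Function.update_self]
      show max (-R) (min R 0) = 0
      rw [min_eq_right hR, max_eq_right (by linarith)]
    rw [e2]
    simp
  · rw [if_neg h0, mul_zero]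

/-- A2: the Weyl function without the neighbours -/
theorem iso : S_Iso := by
  classical
  intro d c R hR V l h0 hl z hz
  obtain ⟨A, hA⟩ : ∃ A, A = rem l (TC c hR (Function.update V 0 0)) := ⟨_, rfl⟩
  rw [← hA]
  have hs : IsSelfAdjoint A := by rw [hA]; exact rem_sa (TC_sa c hR _) l
  have h1 : A (dl 0) = 0 := by
    rw [hA]
    ext x
    rw [rem_dl _ l h0]
    by_cases hx : x ∈ l
    · rw [if_pos hx]; rfl
    · rw [if_neg hx, TC_dl c hR V x]
      · rfl
      · intro i
        constructor
        · intro h; exact hx (h ▸ (hl i).1)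
        · intro h; exact hx (h ▸ (hl i).2)
  have hz0 : z ≠ 0 := by
    intro h
    rw [h] at hz
    exact hz rfl
  have h2 : (-z)⁻¹ • (dl 0 : L2 (Site d)) = Rz A z (dl 0) := by
    apply rz_uniq A hs z hz
    rw [map_smul, h1, smul_zero, zero_sub, smul_smul, ← neg_smul]
    have : -(z * (-z)⁻¹) = 1 := by field_simp
    rw [this, one_smul]
  unfold wf
  rw [← h2, inner_smul_right, CV.inner_dl, dl_apply, if_pos rfl, mul_one, inv_inv, neg_neg]

/-- A2': the curve is rarely close to the diagonal -/
theorem dia : S_Dia := by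
  intro h f g hC L η hη
  obtain ⟨A, hA⟩ : ∃ A : ℕ → Set ℝ, A = fun n : ℕ => {E : ℝ | E ∈ Set.Icc (-L) L ∧
    |f E - E| < 1 / ((n : ℝ) + 1)} := ⟨_, rfl⟩
  have hf : Continuous f := continuous_iff_continuousAt.2 fun E => (hC.der E).continuousAt
  have hm : ∀ n, MeasurableSet (A n) := by
    intro n
    rw [hA]
    refine measurableSet_Icc.inter ?_
    exact (isOpen_lt (f := fun E : ℝ => |f E - E|) (by fun_prop) continuous_const).measurableSet
  have hanti : Antitone A := by
    intro a b hab
    rw [hA]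
    rintro E ⟨h1, h2⟩
    refine ⟨h1, h2.trans_le ?_⟩
    have : (a : ℝ) ≤ b := by exact_mod_cast hab
    exact one_div_le_one_div_of_le (by positivity) (by linarith)
  have hfin : ∃ n, volume (A n) ≠ ⊤ := by
    refine ⟨0, ?_⟩
    refine ne_top_of_le_ne_top (measure_Icc_lt_top (a := -L) (b := L) (μ := volume)).ne ?_
    apply measure_mono
    rw [hA]
    exact fun E hE => hE.1
  have hlim := tendsto_measure_iInter_atTop (μ := volume) (fun n => (hm n).nullMeasurableSet)
    hanti hfin
  have h0 : volume (⋂ n, A n) = 0 := by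
    refine measure_mono_null ?_ hC.fix
    intro E hE
    rw [Set.mem_iInter] at hE
    show f E = E
    have h1 : ∀ n : ℕ, |f E - E| < 1 / ((n : ℝ) + 1) := by
      intro n
      have := hE n
      rw [hA] at this
      exact this.2
    have h2 : |f E - E| ≤ 0 :=
      ge_of_tendsto' (tendsto_one_div_add_atTop_nhds_zero_nat (𝕜 := ℝ)) fun n => (h1 n).le
    have h3 := abs_nonpos_iff.1 h2
    linarith
  rw [h0] at hlim
  have hev := (ENNReal.tendsto_nhds_zero.1 hlim) (ENNReal.ofReal η) (ENNReal.ofReal_pos.2 hη)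
  obtain ⟨n, hn⟩ := hev.exists
  refine ⟨1 / ((n : ℝ) + 1), by positivity, fun k => ?_⟩
  refine le_trans (measure_mono ?_) hn
  rintro E ⟨h1, h2⟩
  rw [hA]
  refine ⟨h1, lt_of_le_of_lt ?_ h2⟩
  have h3 := Complex.abs_re_le_norm (zc f g E k - zk E k)
  have h4 : (zc f g E k - zk E k).re = f E - E := by
    unfold zc zk
    simp
  rw [h4] at h3
  exact h3

end Pool.Agent.Helper36.Cc
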